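import Pool.Agent.H72R3.SK.Main

/-!
# Stable manifolds of skew products over `z ↦ z^d` which are not biholomorphic to `ℂ²`
-/

set_option autoImplicit false

namespace Pool.Agent.Results.MP_e40659_an.PeriodTwoFibre

open Pool.Agent.H72R3.SK

/-- For every `d ≥ 2` there is a holomorphic skew product `F(z₁, z₂, z₃) = (z₁^d, G_{z₁}(z₂, z₃))`,
all the maps `G_l`, `|l| = 1`, being automorphisms of `ℂ²` with attracting fixed point `0`, and a
point `p` with `|p| = 1` whose stable manifold is not the image of an injective holomorphic map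
of `ℂ²`. -/
theorem result (d : ℕ) (hd : 2 ≤ d) :
    ∃ (G : ℂ → ℂ × ℂ → ℂ × ℂ) (F : ℂ × ℂ × ℂ → ℂ × ℂ × ℂ) (p : ℂ),
      IsSkewProduct d G F ∧ ‖p‖ = 1 ∧ ¬ IsHolomorphicImage (stableManifold F p) :=
  exists_example d hd

end Pool.Agent.Results.MP_e40659_an.PeriodTwoFibre
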